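import Pool.Agent.Helper60_R30B.ABS
import Pool.Agent.Helper60_R30B.PAT
import Pool.Agent.Helper60_R30B.COV
import Pool.Agent.Helper77_R30B.AG2
import Pool.Agent.Helper34_R30B.WHT
import Pool.Agent.Helper44_R30B.BLK
import Pool.Agent.Helper44_R30B.ZCB
import Pool.Agent.Helper15_R30B.ZCA
import Pool.Agent.Helper49_R30B.EDG
import Pool.Agent.Helper86_R30B.ZER
import Pool.Agent.Helper65_R30B.ZRO

/-!
Rule 30: an eventually periodic column of the diagram of a row with a leftmost black cell has no
long runs (assembly of the rows of the squad R30B).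
-/

set_option autoImplicit false

namespace Pool.Agent.R30B.All

open Pool.Agent.H21R30 Pool.Agent.R30B

theorem abs_ : AbsStmt := H60.abs
theorem pat_ : PatStmt := H60.pat abs_
theorem agr_ : AgrStmt := H60.agr pat_
theorem cov_ : CovStmt := H60.cov agr_
theorem run_ : RunStmt := H60.run cov_
theorem ag2_ : Ag2Stmt := H77.ag2 agr_
theorem wht_ : WhtStmt := H34.wht
theorem blk_ : BlkStmt := H44.blk
theorem edg_ : EdgStmt := H49.edg
theorem zca_ : ZcaStmt := H15.zca pat_ ag2_ wht_
theorem zcb_ : ZcbStmt := H44.zcb wht_ blk_ edg_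
theorem zer_ : ZerStmt := H86.zer zca_ zcb_
theorem zro_ : ZroStmt := H65.zro zer_ wht_

end Pool.Agent.R30B.All
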