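import Pool.Agent.Helper37_R30B.All
import Pool.Agent.Helper60_R30B.COV

/-!
# Squad R30B (MP_3953f1_lc): covering theorem with the alternative (the driver is 0 since the end
of a run of nine ones), idea of helper16
-/

set_option autoImplicit false

namespace Pool.Agent.R30B.H37

open Pool.Agent.R30B Pool.Agent.H21R30

/-- After at least nine ones of the driver, column `1` is `0` at the first zero of the driver and
`1` at the following zeros. -/
theorem after (hB : AbsStmt) (D : ℕ → ℕ → Bool) (hD : Dia D) (n : ℕ) (hn : 9 ≤ n)
    (h1 : ∀ t < n, D t 0 = true) (t : ℕ) (ht : n ≤ t)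
    (h0 : ∀ q, n ≤ q → q ≤ t → D q 0 = false) : D t 1 = decide (n < t) := by
  have h := hB (fun t k => D (n - 9 + t) k) (by
    intro t k
    have := hD (n - 9 + t) k
    rwa [show n - 9 + t + 1 = n - 9 + (t + 1) by omega] at this) (by
    intro t ht
    exact h1 _ (by omega))
  have e : n - 9 + 9 = n := by omega
  simp only [e] at h
  obtain ⟨d, rfl⟩ := Nat.exists_eq_add_of_le ht
  induction d with
  | zero => simpa using h.1
  | succ d ih =>
    have ih' := ih (by omega) (fun q hq1 hq2 => h0 q hq1 (by omega))
    have hr := hD (n + d) 0
    have hz := h0 (n + d) (by omega) (by omega)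
    rw [hz] at hr
    have hgoal : D (n + (d + 1)) 1 = true := by
      rw [show n + (d + 1) = n + d + 1 by omega, hr]
      cases d with
      | zero =>
        have h2 : D (n + 0) (0 + 2) = true := h.2
        rw [h2]
        simp
      | succ d =>
        have : D (n + (d + 1)) (0 + 1) = true := by
          rw [ih']
          simp
        simp [this]
    rw [hgoal]
    simp

/-- The covering theorem: the zeros of the window are covered either by the agreement after a long
run of ones or because the driver is `0` since the end of a run of at least nine ones. -/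
theorem apr (hA : AgrStmt) (hB : AbsStmt) (c : ℤ → Bool) (l : ℤ) (h0 : ∀ i, i < l → c i = false)
    (h1 : c l = true) (i : ℤ) (p T₀ T M : ℕ) (hp : 0 < p) (hT : T₀ ≤ T)
    (hl : l + 1 ≤ i + T + p) (hper : ∀ t, T₀ ≤ t → t < M → cell c (t + p) i = cell c t i)
    (hcov : ∀ t, T ≤ t → t < M → cell c t i = false → ∃ s n : ℕ, T₀ ≤ s ∧ 9 ≤ n ∧ s + n ≤ t ∧
      (t < s + n + 4 * ((n - 2) / 7) ∨ ∀ q, s + n ≤ q → q ≤ t → cell c q i = false) ∧
      ∀ q, s ≤ q → q < s + n → cell c q i = true) :
    (M : ℤ) ≤ i - l + 2 * T + p := by
  rcases Nat.lt_or_ge T M with hM | hM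
  · have hadj := adjacent c l h0 h1 (i - 1) T p (M - 1) hp (by linarith) (by
      intro t ht1 ht2
      have e : i - 1 + 1 = i := by ring
      have hi := hper t (by omega) (by omega)
      have hi1 := hper (t + 1) (by omega) (by omega)
      rw [e]
      refine ⟨?_, hi⟩
      rw [cell_left, cell_left, hi, show t + p + 1 = t + 1 + p by omega, hi1]
      cases hb : cell c t i with
      | true => rfl
      | false =>
        obtain ⟨s, n, g1, g2, g3, g4, g5⟩ := hcov t ht1 (by omega) hb
        have r1 : ∀ t' < n, cell c (s + t' + 0) (i + ((0 : ℕ) : ℤ)) = true := by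
          intro t' ht'
          have := g5 (s + t') (by omega) (by omega)
          simpa using this
        have r2 : ∀ t' < n, cell c (s + t' + p) (i + ((0 : ℕ) : ℤ)) = true := by
          intro t' ht'
          have a := g5 (s + t') (by omega) (by omega)
          have b := hper (s + t') (by omega) (by omega)
          rw [a] at b
          simpa using b
        have e1 : s + (t - s) = t := by omega
        have hag : cell c (s + (t - s) + 0) (i + ((1 : ℕ) : ℤ)) =
            cell c (s + (t - s) + p) (i + ((1 : ℕ) : ℤ)) := by
          rcases g4 with g4 | g4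
          · exact hA (fun t k => cell c (s + t + 0) (i + (k : ℕ)))
              (fun t k => cell c (s + t + p) (i + (k : ℕ))) (H60.dia_cell c i s 0)
              (H60.dia_cell c i s p) n ((n - 2) / 7) (t - s) (by omega) (by omega) r1 r2
              (by
                intro t' ht'
                have b := hper (s + t') (by omega) (by omega)
                simpa using b.symm)
              (t - s) (by omega) le_rfl (by omega)
          · have a1 := after hB (fun t k => cell c (s + t + 0) (i + (k : ℕ)))
              (H60.dia_cell c i s 0) n g2 r1 (t - s) (by omega) (by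
                intro q hq1 hq2
                have := g4 (s + q) (by omega) (by omega)
                simpa using this)
            have a2 := after hB (fun t k => cell c (s + t + p) (i + (k : ℕ)))
              (H60.dia_cell c i s p) n g2 r2 (t - s) (by omega) (by
                intro q hq1 hq2
                have a := g4 (s + q) (by omega) (by omega)
                have b := hper (s + q) (by omega) (by omega)
                rw [a] at b
                simpa using b)
            exact a1.trans a2.symm
        simp only [e1, Nat.add_zero, Nat.cast_one] at hag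
        rw [hag])
    have hM1 : ((M - 1 : ℕ) : ℤ) = M - 1 := by
      rw [Nat.cast_sub (by omega)]
      norm_num
    rw [hM1] at hadj
    linarith
  · have : (M : ℤ) ≤ T := by exact_mod_cast hM
    linarith

theorem apr_ : ∀ (c : ℤ → Bool) (l : ℤ), (∀ i, i < l → c i = false) → c l = true →
    ∀ (i : ℤ) (p T₀ T M : ℕ), 0 < p → T₀ ≤ T → l + 1 ≤ i + T + p →
    (∀ t, T₀ ≤ t → t < M → cell c (t + p) i = cell c t i) →
    (∀ t, T ≤ t → t < M → cell c t i = false → ∃ s n : ℕ, T₀ ≤ s ∧ 9 ≤ n ∧ s + n ≤ t ∧
      (t < s + n + 4 * ((n - 2) / 7) ∨ ∀ q, s + n ≤ q → q ≤ t → cell c q i = false) ∧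
      ∀ q, s ≤ q → q < s + n → cell c q i = true) →
    (M : ℤ) ≤ i - l + 2 * T + p :=
  fun c l h0 h1 i p T₀ T M => apr All.agr_ All.abs_ c l h0 h1 i p T₀ T M

end Pool.Agent.R30B.H37
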